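import Mathlib

set_option autoImplicit false

namespace Pool.Agent.W232.Cat

/-- look up -/
def lk (b : List ℕ) (i : ℕ) : ℕ := b.getD i 0

def sepL (b : List ℕ) (A B : List ℕ) : Bool :=
  A.all (fun x => B.all (fun y => Nat.blt (lk b x) (lk b y))) ||
    A.all (fun x => B.all (fun y => Nat.blt (lk b y) (lk b x)))

/-- the candidate labellings and blocks -/
def cands : List ((Fin 7 → Fin 4) × List ℕ × List ℕ) :=
  [(![0, 0, 0, 1, 1, 2, 3], [0,1,2], [3,4]),
   (![0, 1, 2, 0, 3, 3, 3], [0,3], [4,5,6]),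
   (![0, 0, 1, 1, 2, 1, 3], [0,1], [2,3,5]),
   (![0, 1, 1, 2, 1, 3, 3], [1,2,4], [5,6]),
   (![0, 1, 1, 1, 2, 2, 3], [1,2,3], [4,5]),
   (![0, 1, 0, 2, 2, 3, 2], [0,2], [3,4,6]),
   (![0, 0, 1, 2, 1, 3, 1], [0,1], [2,4,6]),
   (![0, 1, 0, 2, 0, 3, 3], [0,2,4], [5,6]),
   (![0, 1, 1, 2, 2, 3, 2], [1,2], [3,4,6]),
   (![0, 1, 0, 0, 2, 2, 3], [0,2,3], [4,5]),
   (![0, 1, 1, 1, 2, 3, 2], [1,2,3], [4,6]),
   (![0, 0, 1, 0, 2, 2, 3], [0,1,3], [4,5]),
   (![0, 1, 0, 2, 2, 2, 3], [0,2], [3,4,5]),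
   (![0, 1, 2, 0, 0, 3, 3], [0,3,4], [5,6]),
   (![0, 0, 0, 1, 2, 1, 3], [0,1,2], [3,5]),
   (![0, 1, 0, 0, 2, 3, 2], [0,2,3], [4,6]),
   (![0, 1, 1, 2, 2, 2, 3], [1,2], [3,4,5])]

def okp (l : List ℕ) : Bool :=
  Nat.ble (l.count 0) 2 && (Nat.ble (l.count 1) 1 && (Nat.ble (l.count 2) 1 &&
    (Nat.ble (l.count 3) 1 && Nat.ble (l.count 4) 2)))

def R5 : List ℕ := [0, 1, 2, 3, 4]

def chk : Bool :=
  R5.all fun b0 => R5.all fun b1 => R5.all fun b2 => !(okp [b0, b1, b2]) || R5.all fun b3 =>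
    !(okp [b0, b1, b2, b3]) || R5.all fun b4 => !(okp [b0, b1, b2, b3, b4]) || R5.all fun b5 =>
    !(okp [b0, b1, b2, b3, b4, b5]) || R5.all fun b6 => !(okp [b0, b1, b2, b3, b4, b5, b6]) ||
      cands.any fun c => sepL [b0, b1, b2, b3, b4, b5, b6] c.2.1 c.2.2

set_option maxRecDepth 100000 in
theorem chk_true : chk = true := by decide +kernel

/-- the standard labelling of the leaves of a caterpillar by spine positions -/
def a0 : Fin 7 → Fin 5 := ![0, 0, 1, 2, 3, 4, 4]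

theorem count_spec (b : Fin 7 → Fin 5) (v : Fin 5) :
    [(b 0 : ℕ), b 1, b 2, b 3, b 4, b 5, b 6].count (v : ℕ) =
      (Finset.univ.filter (fun i => b i = v)).card := by
  have h : ∀ i, (((b i : ℕ) == (v : ℕ)) = true) ↔ b i = v := by
    intro i
    rw [beq_iff_eq, Fin.ext_iff]
  rw [Finset.card_filter]
  simp only [List.count_cons, List.count_nil, h, Fin.sum_univ_succ, Fin.sum_univ_zero]
  have e2 : (Fin.succ 0 : Fin 7) = 1 := rfl
  simp only [show (Fin.succ 0 : Fin 7) = 1 from rfl, show (Fin.succ (Fin.succ 0) : Fin 7) = 2 from rfl,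
    show (Fin.succ (Fin.succ (Fin.succ 0)) : Fin 7) = 3 from rfl,
    show (Fin.succ (Fin.succ (Fin.succ (Fin.succ 0))) : Fin 7) = 4 from rfl,
    show (Fin.succ (Fin.succ (Fin.succ (Fin.succ (Fin.succ 0)))) : Fin 7) = 5 from rfl,
    show (Fin.succ (Fin.succ (Fin.succ (Fin.succ (Fin.succ (Fin.succ 0))))) : Fin 7) = 6 from rfl]
  ring

theorem okp_of_le (l : List ℕ) (h0 : l.count 0 ≤ 2) (h1 : l.count 1 ≤ 1) (h2 : l.count 2 ≤ 1)
    (h3 : l.count 3 ≤ 1) (h4 : l.count 4 ≤ 2) : okp l = true := by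
  simp only [okp, Bool.and_eq_true, Nat.ble_eq]
  exact ⟨h0, h1, h2, h3, h4⟩

theorem chk_spec (b : Fin 7 → Fin 5)
    (hb : ∀ v, (Finset.univ.filter (fun i => b i = v)).card =
      (Finset.univ.filter (fun i => a0 i = v)).card) :
    ∃ c ∈ cands, sepL [(b 0 : ℕ), b 1, b 2, b 3, b 4, b 5, b 6] c.2.1 c.2.2 = true := by
  have hR : ∀ x : Fin 5, (x : ℕ) ∈ R5 := by decide
  have hpre : ∀ l : List ℕ, l.Sublist [(b 0 : ℕ), b 1, b 2, b 3, b 4, b 5, b 6] → okp l = true := by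
    intro l hl
    have hc : ∀ v : Fin 5, l.count (v : ℕ) ≤ (Finset.univ.filter (fun i => a0 i = v)).card := by
      intro v
      rw [← hb v, ← count_spec]
      exact hl.count_le _
    have c0 := hc 0
    have c1 := hc 1
    have c2 := hc 2
    have c3 := hc 3
    have c4 := hc 4
    have d0 : (Finset.univ.filter (fun i => a0 i = 0)).card = 2 := by decide
    have d1 : (Finset.univ.filter (fun i => a0 i = 1)).card = 1 := by decide
    have d2 : (Finset.univ.filter (fun i => a0 i = 2)).card = 1 := by decide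
    have d3 : (Finset.univ.filter (fun i => a0 i = 3)).card = 1 := by decide
    have d4 : (Finset.univ.filter (fun i => a0 i = 4)).card = 2 := by decide
    rw [d0] at c0
    rw [d1] at c1
    rw [d2] at c2
    rw [d3] at c3
    rw [d4] at c4
    exact okp_of_le l c0 c1 c2 c3 c4
  have h := chk_true
  unfold chk at h
  simp only [List.all_eq_true] at h
  have h3 := h _ (hR (b 0)) _ (hR (b 1)) _ (hR (b 2))
  rw [hpre [(b 0 : ℕ), b 1, b 2] (by
    exact List.sublist_append_left [(b 0 : ℕ), b 1, b 2] [(b 3 : ℕ), b 4, b 5, b 6])] at h3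
  simp only [Bool.not_true, Bool.false_or, List.all_eq_true] at h3
  have h4 := h3 _ (hR (b 3))
  rw [hpre [(b 0 : ℕ), b 1, b 2, b 3] (by
    exact List.sublist_append_left [(b 0 : ℕ), b 1, b 2, b 3] [(b 4 : ℕ), b 5, b 6])] at h4
  simp only [Bool.not_true, Bool.false_or, List.all_eq_true] at h4
  have h5 := h4 _ (hR (b 4))
  rw [hpre [(b 0 : ℕ), b 1, b 2, b 3, b 4] (by
    exact List.sublist_append_left [(b 0 : ℕ), b 1, b 2, b 3, b 4] [(b 5 : ℕ), b 6])] at h5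
  simp only [Bool.not_true, Bool.false_or, List.all_eq_true] at h5
  have h6 := h5 _ (hR (b 5))
  rw [hpre [(b 0 : ℕ), b 1, b 2, b 3, b 4, b 5] (by
    exact List.sublist_append_left [(b 0 : ℕ), b 1, b 2, b 3, b 4, b 5] [(b 6 : ℕ)])] at h6
  simp only [Bool.not_true, Bool.false_or, List.all_eq_true] at h6
  have h7 := h6 _ (hR (b 6))
  rw [hpre [(b 0 : ℕ), b 1, b 2, b 3, b 4, b 5, b 6] (List.Sublist.refl _)] at h7
  simp only [Bool.not_true, Bool.false_or, List.any_eq_true] at h7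
  exact h7

end Pool.Agent.W232.Cat
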