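import Mathlib

set_option autoImplicit false

namespace Pool.Agent.W232.Cat

/-- parent function of the caterpillar -/
def parT : Fin 12 → Fin 12 := ![0, 0, 1, 2, 3, 0, 0, 1, 2, 3, 4, 4]

/-- parent function of the other tree -/
def parF : Fin 12 → Fin 12 := ![0, 0, 1, 0, 0, 2, 4, 3, 1, 3, 2, 4]

/-- descendants, as bits -/
def tT : List ℕ := [4095, 3998, 3868, 3608, 3088, 32, 64, 128, 256, 512, 1024, 2048]

/-- descendants, as bits -/
def tF : List ℕ := [4095, 1318, 1060, 648, 2128, 32, 64, 128, 256, 512, 1024, 2048]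

/-- `v` is an ancestor of `w` or equal to it -/
def anc (t : List ℕ) (v w : Fin 12) : Bool := Nat.testBit (t.getD v.val 0) w.val

/-- the vertex of the leaf `i` -/
def lf (i : Fin 7) : Fin 12 := ⟨5 + i, by omega⟩

/-- the bit vector `m` separates the leaves `i, j` from the leaves `k, l` -/
def sepm (m i j k l : ℕ) : Bool :=
  Nat.testBit m (5 + i) == Nat.testBit m (5 + j) && (Nat.testBit m (5 + k) == Nat.testBit m (5 + l)
    && Nat.testBit m (5 + i) != Nat.testBit m (5 + k))

/-- some edge separates the leaves `i, j` from the leaves `k, l` -/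
def sep (t : List ℕ) (i j k l : Fin 7) : Bool := t.any fun m => sepm m i j k l

theorem sep_of (t : List ℕ) (i j k l : Fin 7) (v : Fin 12) (hv : v.val < t.length)
    (h1 : anc t v (lf i) = anc t v (lf j)) (h2 : anc t v (lf k) = anc t v (lf l))
    (h3 : anc t v (lf i) ≠ anc t v (lf k)) : sep t i j k l = true := by
  unfold sep
  rw [List.any_eq_true]
  refine ⟨t.getD v.val 0, ?_, ?_⟩
  · rw [List.getD_eq_getElem _ _ hv]
    exact List.getElem_mem hv
  · unfold anc lf at h1 h2 h3
    unfold sepm
    simp only at h1 h2 h3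
    rw [h1, h2]
    rw [h1, h2] at h3
    simp only [beq_self_eq_true, Bool.true_and, bne_iff_ne]
    exact h3

/-- both trees -/
def sh (i j k l : Fin 7) : Bool := sep tF i j k l && sep tT i j k l

theorem F1 : ∀ i j k l : Fin 7, sh i j k l = true → i ≠ j → k ≠ l →
    (∀ m : Fin 7, m ≠ i → sh i m k l = true → m = j) ∧
    (∀ m m' : Fin 7, m ≠ m' → sh i j m m' = true → sh k l m m' = true → False) := by
  decide +kernel

theorem single (f : Fin 7 → Fin 4)
    (hQ : ∀ i j k l, f i = f j → f k = f l → f i ≠ f k → sh i j k l = true) :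
    ∀ i j k l, i ≠ j → k ≠ l → f i = f j → f k = f l → f i = f k := by
  intro i j k l hij hkl h1 h2
  by_contra h3
  have hs := hQ i j k l h1 h2 h3
  have hs' := hQ k l i j h2 h1 (Ne.symm h3)
  obtain ⟨f1, f2⟩ := F1 i j k l hs hij hkl
  obtain ⟨g1, _⟩ := F1 k l i j hs' hkl hij
  -- the two classes
  have c1 : ∀ m, f m = f i → m = i ∨ m = j := by
    intro m hm
    by_cases hmi : m = i
    · exact Or.inl hmi
    · exact Or.inr (f1 m hmi (hQ i m k l hm.symm h2 h3))
  have c2 : ∀ m, f m = f k → m = k ∨ m = l := by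
    intro m hm
    by_cases hmi : m = k
    · exact Or.inl hmi
    · exact Or.inr (g1 m hmi (hQ k m i j hm.symm h1 (Ne.symm h3)))
  have hcard : (({i, j, k, l} : Finset (Fin 7))ᶜ).card ≥ 3 := by
    rw [Finset.card_compl, Fintype.card_fin]
    have := Finset.card_le_four (a := i) (b := j) (c := k) (d := l)
    omega
  have hmaps : ∀ m ∈ (({i, j, k, l} : Finset (Fin 7))ᶜ), f m ∈ (({f i, f k} : Finset (Fin 4))ᶜ) := by
    intro m hm
    rw [Finset.mem_compl] at hm ⊢
    simp only [Finset.mem_insert, Finset.mem_singleton, not_or] at hm ⊢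
    refine ⟨fun h => ?_, fun h => ?_⟩
    · rcases c1 m h with h | h
      · exact hm.1 h
      · exact hm.2.1 h
    · rcases c2 m h with h | h
      · exact hm.2.2.1 h
      · exact hm.2.2.2 h
  have hcard2 : (({f i, f k} : Finset (Fin 4))ᶜ).card = 2 := by
    rw [Finset.card_compl, Fintype.card_fin, Finset.card_pair h3]
  obtain ⟨m, hm, m', hm', hne, he⟩ := Finset.exists_ne_map_eq_of_card_lt_of_maps_to
    (by rw [hcard2]; omega) hmaps
  have h5 := hmaps m hm
  rw [Finset.mem_compl] at h5
  simp only [Finset.mem_insert, Finset.mem_singleton, not_or] at h5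
  exact f2 m m' hne (hQ i j m m' h1 he (Ne.symm h5.1)) (hQ k l m m' h2 he (Ne.symm h5.2))

/-- the tree with parent function `par` -/
def Gp (par : Fin 12 → Fin 12) : SimpleGraph (Fin 12) where
  Adj u v := u ≠ v ∧ ((u ≠ 0 ∧ par u = v) ∨ (v ≠ 0 ∧ par v = u))
  symm := ⟨fun _ _ h => ⟨h.1.symm, h.2.symm⟩⟩
  loopless := ⟨fun _ h => h.1 rfl⟩

instance (par : Fin 12 → Fin 12) : DecidableRel (Gp par).Adj := fun u v => by
  unfold Gp; infer_instance

/-- the parent function and the table fit together -/
def Fits (par : Fin 12 → Fin 12) (t : List ℕ) : Prop :=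
  t.length = 12 ∧ (∀ v, v ≠ 0 → par v < v) ∧ (∀ v w, w ≠ 0 → v ≠ w → anc t v w = anc t v (par w)) ∧
    (∀ v, anc t v v = true) ∧ (∀ v w, w < v → anc t v w = false)

instance (par : Fin 12 → Fin 12) (t : List ℕ) : Decidable (Fits par t) := by
  unfold Fits; infer_instance

theorem fitsT : Fits parT tT := by decide +kernel
theorem fitsF : Fits parF tF := by decide +kernel

theorem par_ne {par : Fin 12 → Fin 12} {t : List ℕ} (h : Fits par t) (v : Fin 12) (hv : v ≠ 0) :
    (Gp par).Adj v (par v) := ⟨(h.2.1 v hv).ne', Or.inl ⟨hv, rfl⟩⟩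

/-- if the edge above `v` is missing then it separates -/
theorem sepa {par : Fin 12 → Fin 12} {t : List ℕ} (h : Fits par t) (H : SimpleGraph (Fin 12))
    (hH : H ≤ Gp par) (v : Fin 12) (hv : ¬ H.Adj v (par v)) :
    ∀ (x y : Fin 12) (_ : H.Walk x y), anc t v x = anc t v y := by
  intro x y w
  induction w with
  | nil => rfl
  | @cons x z y hxz _ ih =>
    rw [← ih]
    obtain ⟨_, h1 | h1⟩ := hH hxz
    · obtain ⟨h2, h3⟩ := h1
      by_cases hvx : v = x
      · subst hvx
        rw [← h3] at hxz
        exact absurd hxz hv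
      · rw [← h3]; exact h.2.2.1 v x h2 hvx
    · obtain ⟨h2, h3⟩ := h1
      by_cases hvx : v = z
      · subst hvx
        rw [← h3] at hxz
        exact absurd hxz.symm hv
      · rw [← h3]; exact (h.2.2.1 v z h2 hvx).symm

/-- if no missing edge separates then the two vertices are connected -/
theorem conn {par : Fin 12 → Fin 12} {t : List ℕ} (h : Fits par t) (H : SimpleGraph (Fin 12)) :
    ∀ (N : ℕ) (x y : Fin 12), x.val + y.val ≤ N →
      (∀ v, v ≠ 0 → anc t v x ≠ anc t v y → H.Adj v (par v)) → H.Reachable x y := by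
  have key : ∀ (x y : Fin 12), y < x →
      (∀ v, v ≠ 0 → anc t v x ≠ anc t v y → H.Adj v (par v)) →
      H.Adj x (par x) ∧ (∀ v, v ≠ 0 → anc t v (par x) ≠ anc t v y → H.Adj v (par v)) := by
    intro x y hyx hv
    have hx0 : x ≠ 0 := by
      rintro rfl
      exact absurd hyx (Fin.not_lt_zero y)
    have h1 : H.Adj x (par x) := by
      apply hv x hx0
      rw [h.2.2.2.1 x, h.2.2.2.2 x y hyx]
      exact Bool.noConfusion
    refine ⟨h1, fun v hv0 hne => ?_⟩
    by_cases hvx : v = x
    · subst hvx; exact h1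
    · apply hv v hv0
      rw [h.2.2.1 v x hx0 hvx]
      exact hne
  intro N
  induction N with
  | zero =>
    intro x y hN _
    have : x = y := by
      apply Fin.ext
      omega
    subst this
    exact SimpleGraph.Reachable.refl _
  | succ N ih =>
    intro x y hN hv
    rcases lt_trichotomy x y with hlt | heq | hlt
    · obtain ⟨h1, h2⟩ := key y x hlt (fun v h0 hne => hv v h0 (Ne.symm hne))
      have hlt' : par y < y := h.2.1 y (by rintro rfl; exact absurd hlt (Fin.not_lt_zero x))
      have h3 := ih (par y) x (by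
        have : (par y).val < y.val := hlt'
        omega) h2
      exact (h1.reachable.trans h3).symm
    · subst heq
      exact SimpleGraph.Reachable.refl _
    · obtain ⟨h1, h2⟩ := key x y hlt hv
      have hlt' : par x < x := h.2.1 x (by rintro rfl; exact absurd hlt (Fin.not_lt_zero y))
      have h3 := ih (par x) y (by
        have : (par x).val < x.val := hlt'
        omega) h2
      exact h1.reachable.trans h3

/-- two different classes of a common refinement are separated by an edge -/
theorem cross {par : Fin 12 → Fin 12} {t : List ℕ} (h : Fits par t) (H : SimpleGraph (Fin 12))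
    (hH : H ≤ Gp par) (i j k l : Fin 7) (hij : H.Reachable (lf i) (lf j))
    (hkl : H.Reachable (lf k) (lf l)) (hik : ¬ H.Reachable (lf i) (lf k)) :
    sep t i j k l = true := by
  by_contra hcon
  apply hik
  apply conn h H ((lf i).val + (lf k).val) _ _ le_rfl
  intro v hv0 hne
  by_contra hadj
  obtain ⟨w1⟩ := hij
  obtain ⟨w2⟩ := hkl
  exact hcon (sep_of t i j k l v (by rw [h.1]; exact v.isLt) (sepa h H hH v hadj _ _ w1)
    (sepa h H hH v hadj _ _ w2) hne)

theorem isTree {par : Fin 12 → Fin 12} {t : List ℕ} (h : Fits par t)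
    (hc : (Gp par).edgeFinset.card = 11) : (Gp par).IsTree := by
  rw [SimpleGraph.isTree_iff_connected_and_card]
  refine ⟨?_, ?_⟩
  · rw [SimpleGraph.connected_iff]
    refine ⟨fun x y => ?_, ⟨0⟩⟩
    exact conn h (Gp par) _ x y le_rfl (fun v hv _ => par_ne h v hv)
  · rw [Nat.card_eq_fintype_card, Nat.card_eq_fintype_card, ← SimpleGraph.edgeFinset_card, hc,
      Fintype.card_fin]

theorem cardT : (Gp parT).edgeFinset.card = 11 := by decide +kernel
theorem cardF : (Gp parF).edgeFinset.card = 11 := by decide +kernel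

end Pool.Agent.W232.Cat
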